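import Pool.Agent.Helper58.SF.StA

/-!
# Project SF, module LPL: levels are locally path connected
-/

set_option autoImplicit false

namespace Pool.Agent.Helper84.SF

open Set Topology Pool.Agent.Helper13.TR Pool.Agent.Helper58.SF
open Pool.Agent.Helper13.TW (IsArc Spl IsSCC dch Chn Splt GT CSy MP Val LR MCell StARB StARX StSCL
  StUAR StINF StLIN StAC1 StSDM)

theorem hLPL : StLSP → StBEX → StFLW → StLPL := by
  intro hLSP hBEX hFLW P _ r R dg hSB t ht0 ht1
  have hmet := hSB.met
  have hT2 : T2Space P := inferInstance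
  have hfl : Flow P r R := hSB.box.toFlow
  have hRt : Continuous (R t) := (hFLW P r R hfl).1 t ht0
  obtain ⟨hB1, hB2⟩ := hBEX P r R dg hSB
  rw [locallyPathConnectedSpace_iff_pathComponentIn_mem_nhds]
  intro x u hu hxu
  obtain ⟨O, hO, rfl⟩ := isOpen_induced_iff.mp hu
  have hx : r (x : P) = t := x.2
  have hN' : IsOpen ({y | r y < t} ∪ R t ⁻¹' O) :=
    (isOpen_lt hfl.rc continuous_const).union (hO.preimage hRt)
  have hRx : R t (x : P) = x := hfl.Rid t x hx.le
  have hxN' : (x : P) ∈ {y | r y < t} ∪ R t ⁻¹' O := Or.inr (by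
    show R t (x : P) ∈ O
    rw [hRx]
    exact hxu)
  obtain ⟨N'', hN''o, hxN'', hN''s, hjoin⟩ := hLSP P r R dg hSB x _ hN' hxN'
  have key : ∀ p ∈ N'', r p = t → ∃ a ∈ N'', t < r a ∧ R t a = p := by
    intro p hp hrp
    obtain ⟨η, hη, hηU⟩ := hB2 p N'' hN''o hp
    obtain ⟨t', ht1', ht2'⟩ := exists_between
      (show t < min (t + η) 1 from lt_min (by linarith) ht1)
    obtain ⟨a, haU, hra⟩ := hB1 p t' (by rw [hrp]; exact ht1'.le)
      (lt_of_lt_of_le ht2' (min_le_right _ _))
    refine ⟨a, hηU a haU ?_, by rw [hra]; exact ht1', ?_⟩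
    · rw [hra, hrp]
      exact lt_of_lt_of_le ht2' (min_le_left _ _)
    · have h2 : R (r p) a = p := haU.2
      rw [hrp] at h2
      exact h2
  have claim : ∀ p ∈ N'', ∀ q ∈ N'', r p = t → r q = t → JoinedIn ({y | r y = t} ∩ O) p q := by
    intro p hp q hq hrp hrq
    obtain ⟨a, ha, hta, hRa⟩ := key p hp hrp
    obtain ⟨b, hb, htb, hRb⟩ := key q hq hrq
    have hj := hjoin a ha b hb (by rw [hx]; exact hta) (by rw [hx]; exact htb)
    have hj2 := hj.map hRt
    rw [hRa, hRb] at hj2
    refine hj2.mono ?_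
    rintro _ ⟨y, ⟨hyN, hyr⟩, rfl⟩
    have hyr' : t < r y := by
      have h3 : r (x : P) < r y := hyr
      rwa [hx] at h3
    constructor
    · show r (R t y) = t
      rw [hfl.rR t y ht0, min_eq_left hyr'.le]
    · rcases hyN with h | h
      · exact absurd h (not_lt.mpr hyr'.le)
      · exact h
  have hnb : (Subtype.val ⁻¹' N'' : Set ↥{y : P | r y = t}) ∈ 𝓝 x :=
    (hN''o.preimage continuous_subtype_val).mem_nhds hxN''
  refine Filter.mem_of_superset hnb ?_
  intro q hq
  have hj := claim x hxN'' q hq hx q.2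
  have hqO : (q : P) ∈ O := hj.target_mem.2
  rw [← Subtype.image_preimage_coe] at hj
  exact (IsInducing.subtypeVal.joinedIn_image hxu hqO).mp hj

end Pool.Agent.Helper84.SF
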