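import Pool.Agent.Helper58.SF.StN

/-!
# Project SF, module MRK: marks stay on their side of the crosscut
-/

set_option autoImplicit false

namespace Pool.Agent.Helper84.SF

open Set Topology Pool.Agent.Helper13.TR Pool.Agent.Helper58.SF
open Pool.Agent.Helper13.TW (IsArc Spl IsSCC dch Chn Splt GT CSy MP Val LR MCell StARB StARX StSCL
  StUAR StINF StLIN StAC1 StSDM StLRC StBF StMD1 StMD2 StMD3)

/-- The set `C₀`. -/
private theorem seg_MRK (E₁ J₁ : Set ℂ) (hM : MCell E₁ J₁) (m c : ℂ) (hm : m ∈ E₁ \ J₁)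
    (hc : c ∈ J₁) : ∃ C₀ : Set ℂ, IsCompact C₀ ∧ IsPreconnected C₀ ∧ m ∈ C₀ ∧ c ∈ C₀ ∧
      C₀ ⊆ E₁ ∧ ∀ x ∈ C₀, x ∈ J₁ → x = c := by
  obtain ⟨h, hE, hJ⟩ := hM
  obtain ⟨a, ha, rfl⟩ : m ∈ h '' Metric.closedBall 0 1 := by
    rw [hE]
    exact hm.1
  obtain ⟨b, hb, rfl⟩ : c ∈ h '' Metric.sphere 0 1 := by
    rw [hJ]
    exact hc
  have ha1 : ‖a‖ ≤ 1 := by simpa using ha
  have hb1 : ‖b‖ = 1 := by simpa using hb
  have ha2 : ‖a‖ ≠ 1 := by
    intro h1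
    apply hm.2
    rw [← hJ]
    exact ⟨a, by simpa using h1, rfl⟩
  have ha3 : ‖a‖ < 1 := lt_of_le_of_ne ha1 ha2
  have hcv : Convex ℝ (segment ℝ a b) := convex_segment a b
  have hcpt : IsCompact (segment ℝ a b) := by
    rw [segment_eq_image_lineMap]
    exact isCompact_Icc.image AffineMap.lineMap_continuous
  refine ⟨h '' segment ℝ a b, hcpt.image h.continuous,
    hcv.isPreconnected.image _ h.continuous.continuousOn,
    ⟨a, left_mem_segment ℝ a b, rfl⟩, ⟨b, right_mem_segment ℝ a b, rfl⟩, ?_, ?_⟩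
  · rw [← hE]
    apply image_mono
    refine (convex_closedBall (0 : ℂ) 1).segment_subset ha ?_
    simpa using hb1.le
  · rintro _ ⟨x, ⟨s, t, hs, ht, hst, rfl⟩, rfl⟩ hx
    rw [← hJ] at hx
    obtain ⟨y, hy, hyx⟩ := hx
    rw [h.injective hyx] at hy
    have hn : ‖s • a + t • b‖ = 1 := by simpa using hy
    have hs0 : s = 0 := by
      by_contra hs0
      have hs1 : 0 < s := lt_of_le_of_ne hs (Ne.symm hs0)
      have h1 : ‖s • a + t • b‖ ≤ s * ‖a‖ + t * ‖b‖ := by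
        refine (norm_add_le _ _).trans ?_
        rw [norm_smul, norm_smul, Real.norm_of_nonneg hs, Real.norm_of_nonneg ht]
      rw [hn, hb1] at h1
      nlinarith
    have ht1 : t = 1 := by linarith
    rw [hs0, ht1, zero_smul, one_smul, zero_add]

theorem hMRK : StTHE → StTWO → StMD2 → StARB → StMRK := by
  intro hTHE hTWO _hMD2 hARB S _ _ _ ω V hWN J f hCJ hMono E' J' p' q' D₁' D₂' P' E₁' E₂' _hM hM1
    hE' hSp m' hm'
  obtain ⟨⟨hD1, hD2, hDD, hDJ⟩, hP', hPJ, hEE, hE12, hE1J, hE2J⟩ := hSp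
  obtain ⟨hcpt, hcont, hsurj, hpre⟩ := hMono
  have hA1 := hARB.1 ℂ D₁' p' q' hD1
  have hA2 := hARB.1 ℂ D₂' p' q' hD2
  have hA3 := hARB.1 ℂ P' p' q' hP'
  obtain ⟨c', hc'⟩ : (D₁' \ {p', q'}).Nonempty := hA1.2.2.2.2.2.2.2.2.1.nonempty
  obtain ⟨C₀, hC0c, hC0p, hmC, hcC, hC0E, hC0J⟩ :=
    seg_MRK E₁' (D₁' ∪ P') hM1 m' c' hm' (Or.inl hc'.1)
  have hcD2 : c' ∉ D₂' := by
    intro h
    apply hc'.2
    rw [← hDD]
    exact ⟨hc'.1, h⟩
  have hcJ : c' ∈ J' := by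
    rw [← hDJ]
    exact Or.inl hc'.1
  have hcP : c' ∉ P' := by
    intro h
    apply hc'.2
    rw [← hPJ]
    exact ⟨h, hcJ⟩
  have hdisj : Disjoint C₀ (D₂' ∪ P') := by
    rw [Set.disjoint_left]
    rintro x hx (hx2 | hx2)
    · have hxJ : x ∈ J' := by
        rw [← hDJ]
        exact Or.inr hx2
      have hxD1 : x ∈ D₁' := by
        rw [← hE1J]
        exact ⟨hC0E hx, hxJ⟩
      have := hC0J x hx (Or.inl hxD1)
      rw [this] at hx2
      exact hcD2 hx2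
    · have := hC0J x hx (Or.inr hx2)
      rw [this] at hx2
      exact hcP hx2
  have hclosed : IsClosed (D₂' ∪ P') := (hA2.2.1.union hA3.2.1).isClosed
  obtain ⟨κ, hκ, hκd⟩ := hdisj.exists_thickenings hC0c hclosed
  have hdist : ∀ c ∈ C₀, ∀ u ∈ D₂' ∪ P', κ ≤ dist c u := by
    intro c hc u hu
    by_contra hlt
    push Not at hlt
    exact Set.disjoint_left.mp hκd (Metric.self_subset_thickening hκ _ hc)
      (Metric.mem_thickening_iff.mpr ⟨u, hu, hlt⟩)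
  have hE1E : E₁' ⊆ E' := by
    rw [← hEE]
    exact subset_union_left
  have hcball : c' ∈ Metric.closedBall (0 : ℂ) 1 := hE' (hE1E (hC0E hcC))
  set C' : Set ℂ := C₀ ∪ (Metric.ball c' (κ / 2) ∩ Metric.closedBall 0 1) with hC'
  have hC'pre : IsPreconnected C' := by
    refine IsPreconnected.union c' hcC ⟨Metric.mem_ball_self (by linarith), hcball⟩ hC0p ?_
    exact ((convex_ball c' (κ / 2)).inter (convex_closedBall (0 : ℂ) 1)).isPreconnected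
  have hC'sub : C' ⊆ Metric.closedBall 0 1 := by
    rintro x (hx | hx)
    · exact hE' (hE1E (hC0E hx))
    · exact hx.2
  have hC'dist : ∀ c ∈ C', ∀ u ∈ D₂' ∪ P', κ / 2 ≤ dist c u := by
    rintro c (hc | hc) u hu
    · have := hdist c hc u hu
      linarith
    · have h1 := hdist c' hcC u hu
      have h2 : dist c c' < κ / 2 := Metric.mem_ball.mp hc.1
      have h3 := dist_triangle c' c u
      rw [dist_comm c' c] at h3
      linarith
  refine ⟨κ / 2, by linarith, ?_⟩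
  intro K g p q D₁ D₂ P k hCK hKJ hSpl hCrs _hgp _hgq hgD1 hgD2 hginj hkP hgf hkf hmark
  obtain ⟨_hC1, hC2, _hI, hIU, _hcU, _hcI, _hc1, hc2⟩ := hTHE S ω V hWN K hCK p q D₁ D₂ P hSpl hCrs
  obtain ⟨⟨hInsO, _⟩, ⟨hOutO, _⟩, _, _, _⟩ := hTWO S ω V hWN (D₂ ∪ P) hC2.1
  have hDK : D₁ ∪ D₂ = K := hSpl.2.2.2
  have hApre : IsPreconnected (cl ω J ∩ f ⁻¹' C') := hpre C' hC'sub hC'pre
  have hAD2 : ∀ y ∈ cl ω J ∩ f ⁻¹' C', y ∉ D₂ := by
    intro y hy hyD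
    have hyK : y ∈ K := by
      rw [← hDK]
      exact Or.inr hyD
    have h1 : g y ∈ D₂' := by
      rw [← hgD2]
      exact ⟨y, hyD, rfl⟩
    have h2 := hC'dist (f y) hy.2 (g y) (Or.inl h1)
    have h3 := hgf y hyK
    rw [dist_comm] at h3
    linarith
  have hAP : ∀ y ∈ cl ω J ∩ f ⁻¹' C', y ∉ P := by
    intro y hy hyP
    have h1 : k y ∈ P' := by
      rw [← hkP]
      exact ⟨y, hyP, rfl⟩
    have h2 := hC'dist (f y) hy.2 (k y) (Or.inr h1)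
    have h3 := hkf y hyP
    rw [dist_comm] at h3
    linarith
  obtain ⟨y₀, hy₀D, hy₀⟩ : c' ∈ g '' D₁ := by
    rw [hgD1]
    exact hc'.1
  have hy₀K : y₀ ∈ K := by
    rw [← hDK]
    exact Or.inl hy₀D
  have hy₀J : y₀ ∈ cl ω J := hKJ (Or.inl hy₀K)
  have hy₀A : y₀ ∈ cl ω J ∩ f ⁻¹' C' := by
    refine ⟨hy₀J, Or.inr ⟨?_, ?_⟩⟩
    · have h3 := hgf y₀ hy₀K
      rw [hy₀, dist_comm] at h3
      exact Metric.mem_ball.mpr h3
    · rw [← hsurj]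
      exact ⟨y₀, hy₀J, rfl⟩
  have hy₀Out : y₀ ∈ Out ω (D₂ ∪ P) := by
    intro h
    have h1 : y₀ ∈ cl ω (D₂ ∪ P) ∩ K := ⟨h, hy₀K⟩
    rw [hc2] at h1
    apply hcD2
    rw [← hgD2]
    exact ⟨y₀, h1, hy₀⟩
  have hAU : cl ω J ∩ f ⁻¹' C' ⊆ Ins ω (D₂ ∪ P) ∪ Out ω (D₂ ∪ P) := by
    intro y hy
    by_cases h : y ∈ Ins ω (D₂ ∪ P)
    · exact Or.inl h
    · right
      rintro ((h1 | h1) | h1)
      · exact hAD2 y hy h1
      · exact hAP y hy h1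
      · exact h h1
  have hAI : ∀ y ∈ cl ω J ∩ f ⁻¹' C', y ∉ Ins ω (D₂ ∪ P) := by
    intro y hy hyI
    obtain ⟨z, _, hz1, hz2⟩ := hApre (Ins ω (D₂ ∪ P)) (Out ω (D₂ ∪ P)) hInsO hOutO hAU
      ⟨y, hy, hyI⟩ ⟨y₀, hy₀A, hy₀Out⟩
    exact hz2 (Or.inr hz1)
  intro x hx
  have hxA : x ∈ cl ω J ∩ f ⁻¹' C' := by
    refine ⟨hx.1, ?_⟩
    have h1 : f x = m' := hx.2
    show f x ∈ C'
    rw [h1]
    exact Or.inl hmC
  have hxK : x ∈ Ins ω K \ P := ⟨hmark hx, hAP x hxA⟩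
  rw [← hIU] at hxK
  rcases hxK with h | h
  · exact h
  · exact absurd h (hAI x hxA)

end Pool.Agent.Helper84.SF
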