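import Pool.Agent.Helper58.SF.StS

/-!
# Project SF, module ALX: the Alexander trick
-/

set_option autoImplicit false

namespace Pool.Agent.Helper84.SF

open Set Topology Pool.Agent.Helper58.SF

private abbrev Bd_ALX : Type := ↥(Metric.closedBall (0 : ℂ) 1)

private theorem mem_ALX {w : ℂ} : w ∈ Metric.closedBall (0 : ℂ) 1 ↔ ‖w‖ ≤ 1 := by
  simp

/-- The extension of `C` by the identity. -/
private noncomputable def ex_ALX (C : Bd_ALX ≃ₜ Bd_ALX) (w : ℂ) : ℂ := by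
  classical
  exact if h : ‖w‖ ≤ 1 then ((C ⟨w, mem_ALX.mpr h⟩ : Bd_ALX) : ℂ) else w

private def Fix_ALX (C : Bd_ALX ≃ₜ Bd_ALX) : Prop := ∀ z : Bd_ALX, ‖(z : ℂ)‖ = 1 → C z = z

private theorem fixs_ALX {C : Bd_ALX ≃ₜ Bd_ALX} (hC : Fix_ALX C) : Fix_ALX C.symm := by
  intro z hz
  rw [C.symm_apply_eq]
  exact (hC z hz).symm

private theorem ex1_ALX (C : Bd_ALX ≃ₜ Bd_ALX) {w : ℂ} (h : ‖w‖ ≤ 1) :
    ex_ALX C w = ((C ⟨w, mem_ALX.mpr h⟩ : Bd_ALX) : ℂ) := by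
  unfold ex_ALX
  rw [dif_pos h]

private theorem ex2_ALX {C : Bd_ALX ≃ₜ Bd_ALX} (hC : Fix_ALX C) {w : ℂ} (h : 1 ≤ ‖w‖) :
    ex_ALX C w = w := by
  rcases eq_or_lt_of_le h with h1 | h1
  · rw [ex1_ALX C h1.symm.le, hC _ h1.symm]
  · unfold ex_ALX
    rw [dif_neg (not_le.mpr h1)]

private theorem exn_ALX (C : Bd_ALX ≃ₜ Bd_ALX) {w : ℂ} (h : ‖w‖ ≤ 1) : ‖ex_ALX C w‖ ≤ 1 := by
  rw [ex1_ALX C h]
  exact mem_ALX.mp (C _).2

private theorem exs_ALX (C : Bd_ALX ≃ₜ Bd_ALX) (w : ℂ) :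
    ex_ALX C.symm (ex_ALX C w) = w := by
  by_cases h : ‖w‖ ≤ 1
  · rw [ex1_ALX C.symm (exn_ALX C h)]
    have h1 : (⟨ex_ALX C w, mem_ALX.mpr (exn_ALX C h)⟩ : Bd_ALX) = C ⟨w, mem_ALX.mpr h⟩ :=
      Subtype.ext (ex1_ALX C h)
    rw [h1, C.symm_apply_apply]
  · have h1 : ex_ALX C w = w := by
      unfold ex_ALX
      rw [dif_neg h]
    rw [h1]
    unfold ex_ALX
    rw [dif_neg h]

private theorem exc_ALX {C : Bd_ALX ≃ₜ Bd_ALX} (hC : Fix_ALX C) : Continuous (ex_ALX C) := by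
  have hU : (Metric.closedBall (0 : ℂ) 1) ∪ {w : ℂ | 1 ≤ ‖w‖} = univ := by
    ext w
    simp only [mem_union, mem_ofPred_eq, mem_univ, iff_true, mem_ALX]
    exact le_total _ _
  have h1 : ContinuousOn (ex_ALX C) (Metric.closedBall (0 : ℂ) 1) := by
    rw [continuousOn_iff_continuous_domRestrict]
    have h2 : (Metric.closedBall (0 : ℂ) 1).domRestrict (ex_ALX C) =
        fun z : Bd_ALX => ((C z : Bd_ALX) : ℂ) := by
      funext z
      exact ex1_ALX C (mem_ALX.mp z.2)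
    rw [h2]
    exact continuous_subtype_val.comp C.continuous
  have h2 : ContinuousOn (ex_ALX C) {w : ℂ | 1 ≤ ‖w‖} :=
    continuousOn_id.congr fun w hw => ex2_ALX hC hw
  have h3 := h1.union_of_isClosed h2 Metric.isClosed_closedBall
    (isClosed_le continuous_const continuous_norm)
  rw [hU] at h3
  exact continuousOn_univ.mp h3

/-- The map of the trick. -/
private noncomputable def al_ALX (C : Bd_ALX ≃ₜ Bd_ALX) (t : ℝ) (z : ℂ) : ℂ := by
  classical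
  exact if t = 0 then z else t • ex_ALX C (t⁻¹ • z)

private theorem al0_ALX (C : Bd_ALX ≃ₜ Bd_ALX) (z : ℂ) : al_ALX C 0 z = z := by
  unfold al_ALX
  rw [if_pos rfl]

private theorem alp_ALX (C : Bd_ALX ≃ₜ Bd_ALX) {t : ℝ} (ht : t ≠ 0) (z : ℂ) :
    al_ALX C t z = t • ex_ALX C (t⁻¹ • z) := by
  unfold al_ALX
  rw [if_neg ht]

private theorem alfix_ALX {C : Bd_ALX ≃ₜ Bd_ALX} (hC : Fix_ALX C) {t : ℝ} (ht : 0 ≤ t) {z : ℂ}
    (hz : t ≤ ‖z‖) : al_ALX C t z = z := by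
  rcases eq_or_lt_of_le ht with rfl | h0
  · exact al0_ALX C z
  · rw [alp_ALX C h0.ne', ex2_ALX hC, smul_smul, mul_inv_cancel₀ h0.ne', one_smul]
    rw [norm_smul, norm_inv, Real.norm_of_nonneg ht]
    rw [inv_mul_eq_div, le_div_iff₀ h0, one_mul]
    exact hz

private theorem aln_ALX (C : Bd_ALX ≃ₜ Bd_ALX) {t : ℝ} (ht : 0 ≤ t) {z : ℂ}
    (hz : ‖z‖ ≤ t) : ‖al_ALX C t z‖ ≤ t := by
  rcases eq_or_lt_of_le ht with rfl | h0
  · rw [al0_ALX C z]
    exact hz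
  · rw [alp_ALX C h0.ne', norm_smul, Real.norm_of_nonneg ht]
    have h1 : ‖t⁻¹ • z‖ ≤ 1 := by
      rw [norm_smul, norm_inv, Real.norm_of_nonneg ht, inv_mul_eq_div, div_le_iff₀ h0, one_mul]
      exact hz
    have h2 := exn_ALX C h1
    nlinarith

private theorem als_ALX (C : Bd_ALX ≃ₜ Bd_ALX) (t : ℝ) (z : ℂ) :
    al_ALX C.symm t (al_ALX C t z) = z := by
  by_cases h : t = 0
  · rw [h, al0_ALX, al0_ALX]
  · rw [alp_ALX C h, alp_ALX C.symm h, smul_smul, inv_mul_cancel₀ h, one_smul, exs_ALX, smul_smul,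
      mul_inv_cancel₀ h, one_smul]

private theorem alb_ALX {C : Bd_ALX ≃ₜ Bd_ALX} (hC : Fix_ALX C) (t : unitInterval) (z : Bd_ALX) :
    al_ALX C t z ∈ Metric.closedBall (0 : ℂ) 1 := by
  rw [mem_ALX]
  rcases le_total ‖(z : ℂ)‖ (t : ℝ) with h | h
  · exact (aln_ALX C t.2.1 h).trans t.2.2
  · rw [alfix_ALX hC t.2.1 h]
    exact mem_ALX.mp z.2

private theorem ald_ALX {C : Bd_ALX ≃ₜ Bd_ALX} (hC : Fix_ALX C) {t : ℝ} (ht : 0 ≤ t) (z : ℂ) :
    dist (al_ALX C t z) z ≤ 2 * t := by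
  rcases le_total ‖z‖ t with h | h
  · rw [dist_eq_norm]
    have h1 := norm_sub_le (al_ALX C t z) z
    have h2 := aln_ALX C ht h
    linarith
  · rw [alfix_ALX hC ht h, dist_self]
    linarith

private theorem alc_ALX {C : Bd_ALX ≃ₜ Bd_ALX} (hC : Fix_ALX C) :
    Continuous fun x : unitInterval × Bd_ALX => al_ALX C x.1 x.2 := by
  rw [continuous_iff_continuousAt]
  rintro ⟨t, z⟩
  by_cases h : (t : ℝ) = 0
  · rw [Metric.continuousAt_iff']
    intro ε hε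
    have ht0 : t = 0 := Subtype.ext h
    have hc1 : Filter.Tendsto (fun x : unitInterval × Bd_ALX => 2 * (x.1 : ℝ)) (𝓝 (t, z)) (𝓝 (2 * (t : ℝ))) := by
      exact (continuous_const.mul (continuous_subtype_val.comp continuous_fst)).tendsto _
    have hc2 : Filter.Tendsto (fun x : unitInterval × Bd_ALX => dist (x.2 : ℂ) (z : ℂ)) (𝓝 (t, z))
        (𝓝 (dist (z : ℂ) (z : ℂ))) := by
      exact ((continuous_subtype_val.comp continuous_snd).dist continuous_const).tendsto _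
    rw [h, mul_zero] at hc1
    rw [dist_self] at hc2
    filter_upwards [hc1.eventually (gt_mem_nhds (half_pos hε)),
      hc2.eventually (gt_mem_nhds (half_pos hε))] with x hx1 hx2
    show dist (al_ALX C x.1 x.2) (al_ALX C t z) < ε
    rw [h, al0_ALX]
    have h1 := ald_ALX hC x.1.2.1 (x.2 : ℂ)
    have h2 := dist_triangle (al_ALX C x.1 x.2) (x.2 : ℂ) (z : ℂ)
    linarith
  · have h1 : ContinuousAt (fun x : unitInterval × Bd_ALX =>
        (x.1 : ℝ) • ex_ALX C ((x.1 : ℝ)⁻¹ • (x.2 : ℂ))) (t, z) := by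
      have c1 : ContinuousAt (fun x : unitInterval × Bd_ALX => (x.1 : ℝ)) (t, z) :=
        (continuous_subtype_val.comp continuous_fst).continuousAt
      have c2 : ContinuousAt (fun x : unitInterval × Bd_ALX => (x.2 : ℂ)) (t, z) :=
        (continuous_subtype_val.comp continuous_snd).continuousAt
      exact c1.smul ((exc_ALX hC).continuousAt.comp ((c1.inv₀ h).smul c2))
    refine h1.congr ?_
    have h2 : ∀ᶠ x : unitInterval × Bd_ALX in 𝓝 (t, z), (x.1 : ℝ) ≠ 0 := by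
      have c1 : ContinuousAt (fun x : unitInterval × Bd_ALX => (x.1 : ℝ)) (t, z) :=
        (continuous_subtype_val.comp continuous_fst).continuousAt
      exact c1.eventually_ne h
    filter_upwards [h2] with x hx
    exact (alp_ALX C hx _).symm

theorem hALX : StALX := by
  intro C hC
  have hC' : Fix_ALX C := hC
  refine ⟨⟨fun x => ⟨al_ALX C x.1 x.2, alb_ALX hC' x.1 x.2⟩, (alc_ALX hC').subtype_mk _⟩,
    ?_, ?_, ?_, ?_, ?_⟩
  · intro z
    apply Subtype.ext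
    show al_ALX C ((0 : unitInterval) : ℝ) z = z
    rw [show ((0 : unitInterval) : ℝ) = 0 from rfl, al0_ALX]
  · intro z
    apply Subtype.ext
    show al_ALX C ((1 : unitInterval) : ℝ) z = C z
    rw [show ((1 : unitInterval) : ℝ) = 1 from rfl, alp_ALX C one_ne_zero, inv_one, one_smul, one_smul,
      ex1_ALX C (mem_ALX.mp z.2)]
  · intro t
    refine Function.bijective_iff_has_inverse.mpr
      ⟨fun z => ⟨al_ALX C.symm t z, alb_ALX (fixs_ALX hC') t z⟩, ?_, ?_⟩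
    · intro z
      apply Subtype.ext
      exact als_ALX C t z
    · intro z
      apply Subtype.ext
      exact als_ALX C.symm t z
  · intro t z hz
    apply Subtype.ext
    show al_ALX C t z = z
    exact alfix_ALX hC' t.2.1 (by rw [hz]; exact t.2.2)
  · intro η hη t z
    show dist (al_ALX C t z) (z : ℂ) ≤ η
    have hη0 : 0 ≤ η := dist_nonneg.trans (hη z)
    by_cases h : (t : ℝ) = 0
    · rw [h, al0_ALX, dist_self]
      exact hη0
    · have ht : 0 ≤ (t : ℝ) := t.2.1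
      have ht1 : (t : ℝ) ≤ 1 := t.2.2
      rw [alp_ALX C h]
      have h1 : (z : ℂ) = (t : ℝ) • ((t : ℝ)⁻¹ • (z : ℂ)) := by
        rw [smul_smul, mul_inv_cancel₀ h, one_smul]
      have h2 : dist (ex_ALX C ((t : ℝ)⁻¹ • (z : ℂ))) ((t : ℝ)⁻¹ • (z : ℂ)) ≤ η := by
        by_cases h3 : ‖(t : ℝ)⁻¹ • (z : ℂ)‖ ≤ 1
        · rw [ex1_ALX C h3]
          exact hη ⟨_, mem_ALX.mpr h3⟩
        · rw [ex2_ALX hC' (not_le.mp h3).le, dist_self]
          exact hη0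
      have h3 : dist ((t : ℝ) • ex_ALX C ((t : ℝ)⁻¹ • (z : ℂ))) (z : ℂ) =
          t * dist (ex_ALX C ((t : ℝ)⁻¹ • (z : ℂ))) ((t : ℝ)⁻¹ • (z : ℂ)) := by
        calc dist ((t : ℝ) • ex_ALX C ((t : ℝ)⁻¹ • (z : ℂ))) (z : ℂ)
            = dist ((t : ℝ) • ex_ALX C ((t : ℝ)⁻¹ • (z : ℂ)))
                ((t : ℝ) • ((t : ℝ)⁻¹ • (z : ℂ))) := by rw [← h1]
          _ = t * dist (ex_ALX C ((t : ℝ)⁻¹ • (z : ℂ))) ((t : ℝ)⁻¹ • (z : ℂ)) := by
              rw [dist_smul₀, Real.norm_of_nonneg ht]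
      rw [h3]
      calc (t : ℝ) * dist (ex_ALX C ((t : ℝ)⁻¹ • (z : ℂ))) ((t : ℝ)⁻¹ • (z : ℂ)) ≤ 1 * η :=
            mul_le_mul ht1 h2 dist_nonneg zero_le_one
        _ = η := one_mul η

end Pool.Agent.Helper84.SF
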